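import Mathlib

/-!
# Functions with nowhere Hölder `n`-th derivative: no algebrability (MP_4d07cf_an)

For `n ≥ 1` and every cardinal `κ ≥ 1` the set `𝒜_n` of `n` times differentiable functions
`f : ℝ → ℝ` with nowhere Hölder `n`-th derivative is not strongly `κ`-algebrable.  If `f` is `n`
times differentiable then, by the Baire category theorem applied to `f^{(n-1)}`, the derivative
`f^{(n)}` is bounded near some point `x₀`.  With `c = f(x₀)` the function `f (f - c)^2` has an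
`n`-th derivative which is pointwise Lipschitz at `x₀`.
-/

namespace Pool.Agent.Results.MP_4d07cf_an.NotAlgebrable

open Filter Topology Asymptotics

/-- `f` is `n` times differentiable at every point: `f, f', …, f^{(n-1)}` are differentiable. -/
def TimesDiff (n : ℕ) (f : ℝ → ℝ) : Prop :=
  ∀ m < n, Differentiable ℝ (iteratedDeriv m f)

/-- `g` is nowhere Hölder: for every `x` and every `α > 0`,
`limsup_{y → x} |g y - g x| / |y - x|^α = ∞`. -/
def NowhereHolder (g : ℝ → ℝ) : Prop :=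
  ∀ x : ℝ, ∀ α : ℝ, 0 < α →
    limsup (fun y => ENNReal.ofReal (|g y - g x| / |y - x| ^ α)) (𝓝[≠] x) = ⊤

/-- The set `𝒜_n` of `n` times differentiable functions whose `n`-th derivative is nowhere
Hölder. -/
def ClassA (n : ℕ) : Set (ℝ → ℝ) :=
  {f | TimesDiff n f ∧ NowhereHolder (iteratedDeriv n f)}

/-- `S` is strongly `κ`-algebrable in `ℝ → ℝ`: there is a set `X` of cardinality `κ` such that
every non-zero real polynomial without constant term, in any `k ≥ 1` variables, evaluated at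
distinct elements of `X`, is a non-zero function belonging to `S`. -/
def StronglyAlgebrable (κ : Cardinal.{0}) (S : Set (ℝ → ℝ)) : Prop :=
  ∃ X : Set (ℝ → ℝ), Cardinal.mk X = κ ∧
    ∀ k : ℕ, 1 ≤ k → ∀ P : MvPolynomial (Fin k) ℝ, P ≠ 0 → MvPolynomial.constantCoeff P = 0 →
      ∀ y : Fin k → (ℝ → ℝ), Function.Injective y → (∀ i, y i ∈ X) →
        MvPolynomial.aeval y P ≠ 0 ∧ MvPolynomial.aeval y P ∈ S

/-! ### The calculus of pointwise Lipschitz functions -/

/-- `u` is pointwise Lipschitz at `x₀`. -/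
def PL (x₀ : ℝ) (u : ℝ → ℝ) : Prop := (fun y => u y - u x₀) =O[𝓝 x₀] (fun y => y - x₀)

/-- `u` is locally bounded at `x₀`. -/
def LB (x₀ : ℝ) (u : ℝ → ℝ) : Prop := u =O[𝓝 x₀] (fun _ => (1 : ℝ))

theorem tendsto_sub_one (x₀ : ℝ) : (fun y : ℝ => y - x₀) =O[𝓝 x₀] (fun _ => (1 : ℝ)) := by
  have : Tendsto (fun y : ℝ => y - x₀) (𝓝 x₀) (𝓝 (x₀ - x₀)) :=
    (continuous_id.sub continuous_const).tendsto x₀
  exact this.isBigO_one ℝ

theorem PL.lb {x₀ : ℝ} {u : ℝ → ℝ} (h : PL x₀ u) : LB x₀ u := by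
  have h1 : (fun y => u y - u x₀) =O[𝓝 x₀] (fun _ => (1 : ℝ)) := h.trans (tendsto_sub_one x₀)
  have h2 : (fun _ : ℝ => u x₀) =O[𝓝 x₀] (fun _ => (1 : ℝ)) := isBigO_const_const _ one_ne_zero _
  have h3 := h1.add h2
  simpa [LB] using h3

theorem PL.of_diff {x₀ : ℝ} {u : ℝ → ℝ} (h : DifferentiableAt ℝ u x₀) : PL x₀ u :=
  h.isBigO_sub

theorem PL.add {x₀ : ℝ} {u v : ℝ → ℝ} (hu : PL x₀ u) (hv : PL x₀ v) : PL x₀ (u + v) := by
  have h := IsBigO.add hu hv
  unfold PL
  refine h.congr_left fun y => ?_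
  simp only [Pi.add_apply]; ring

theorem PL.mul {x₀ : ℝ} {u v : ℝ → ℝ} (hu : PL x₀ u) (hv : PL x₀ v) : PL x₀ (u * v) := by
  have h1 : (fun y => (u y - u x₀) * v y) =O[𝓝 x₀] (fun y => (y - x₀) * 1) :=
    IsBigO.mul hu hv.lb
  have h2 : (fun y => u x₀ * (v y - v x₀)) =O[𝓝 x₀] (fun y => y - x₀) :=
    IsBigO.const_mul_left hv _
  have h1' : (fun y => (u y - u x₀) * v y) =O[𝓝 x₀] (fun y => y - x₀) := by simpa using h1
  have h := h1'.add h2
  unfold PL
  refine h.congr_left fun y => ?_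
  simp only [Pi.mul_apply]; ring

theorem PL.mul_lb {x₀ : ℝ} {u v : ℝ → ℝ} (hu : PL x₀ u) (h0 : u x₀ = 0) (hv : LB x₀ v) :
    PL x₀ (u * v) := by
  have h1 : (fun y => (u y - u x₀) * v y) =O[𝓝 x₀] (fun y => (y - x₀) * 1) :=
    IsBigO.mul hu hv
  have h1' : (fun y => (u y - u x₀) * v y) =O[𝓝 x₀] (fun y => y - x₀) := by simpa using h1
  unfold PL
  refine h1'.congr_left fun y => ?_
  simp only [Pi.mul_apply, h0]; ring

/-! ### Higher order versions -/

theorem timesDiff_succ {n : ℕ} {f : ℝ → ℝ} :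
    TimesDiff (n + 1) f ↔ Differentiable ℝ f ∧ TimesDiff n (deriv f) := by
  constructor
  · intro h
    refine ⟨by simpa using h 0 (by omega), fun m hm => ?_⟩
    have := h (m + 1) (by omega)
    rwa [iteratedDeriv_succ'] at this
  · rintro ⟨h0, h1⟩ m hm
    cases m with
    | zero => simpa using h0
    | succ m =>
      rw [iteratedDeriv_succ']
      exact h1 m (by omega)

/-- `u` is `m` times differentiable with `u^{(m)}` pointwise Lipschitz at `x₀`. -/
def PP (x₀ : ℝ) (m : ℕ) (u : ℝ → ℝ) : Prop := TimesDiff m u ∧ PL x₀ (iteratedDeriv m u)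

/-- `u` is `m` times differentiable with `u^{(m)}` locally bounded at `x₀`. -/
def GG (x₀ : ℝ) (m : ℕ) (u : ℝ → ℝ) : Prop := TimesDiff m u ∧ LB x₀ (iteratedDeriv m u)

theorem PP_succ {x₀ : ℝ} {m : ℕ} {u : ℝ → ℝ} :
    PP x₀ (m + 1) u ↔ Differentiable ℝ u ∧ PP x₀ m (deriv u) := by
  unfold PP
  rw [timesDiff_succ, iteratedDeriv_succ']
  tauto

theorem GG_succ {x₀ : ℝ} {m : ℕ} {u : ℝ → ℝ} :
    GG x₀ (m + 1) u ↔ Differentiable ℝ u ∧ GG x₀ m (deriv u) := by
  unfold GG
  rw [timesDiff_succ, iteratedDeriv_succ']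
  tauto

theorem GG.pp_pred {x₀ : ℝ} {m : ℕ} {u : ℝ → ℝ} (h : GG x₀ (m + 1) u) : PP x₀ m u :=
  ⟨fun j hj => h.1 j (by omega), PL.of_diff (h.1 m (by omega) x₀)⟩

theorem PP.gg {x₀ : ℝ} {m : ℕ} {u : ℝ → ℝ} (h : PP x₀ m u) : GG x₀ m u := ⟨h.1, h.2.lb⟩

theorem PP.pp_pred {x₀ : ℝ} {m : ℕ} {u : ℝ → ℝ} (h : PP x₀ (m + 1) u) : PP x₀ m u :=
  h.gg.pp_pred

theorem PP.add {x₀ : ℝ} {m : ℕ} : ∀ {u v : ℝ → ℝ}, PP x₀ m u → PP x₀ m v → PP x₀ m (u + v) := by
  induction m with
  | zero =>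
    intro u v hu hv
    refine ⟨fun j hj => by omega, ?_⟩
    have h1 := hu.2
    have h2 := hv.2
    rw [iteratedDeriv_zero] at h1 h2 ⊢
    exact h1.add h2
  | succ m ih =>
    intro u v hu hv
    rw [PP_succ] at hu hv ⊢
    refine ⟨hu.1.add hv.1, ?_⟩
    have : deriv (u + v) = deriv u + deriv v := by
      funext x
      exact deriv_add (hu.1 x) (hv.1 x)
    rw [this]
    exact ih hu.2 hv.2

theorem deriv_mul_fun {u v : ℝ → ℝ} (hu : Differentiable ℝ u) (hv : Differentiable ℝ v) :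
    deriv (u * v) = deriv u * v + u * deriv v := by
  funext x
  exact deriv_mul (hu x) (hv x)

theorem PP.mul {x₀ : ℝ} {m : ℕ} : ∀ {u v : ℝ → ℝ}, PP x₀ m u → PP x₀ m v → PP x₀ m (u * v) := by
  induction m with
  | zero =>
    intro u v hu hv
    refine ⟨fun j hj => by omega, ?_⟩
    have h1 := hu.2
    have h2 := hv.2
    rw [iteratedDeriv_zero] at h1 h2 ⊢
    exact h1.mul h2
  | succ m ih =>
    intro u v hu hv
    have hu' := hu.pp_pred
    have hv' := hv.pp_pred
    rw [PP_succ] at hu hv ⊢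
    refine ⟨hu.1.mul hv.1, ?_⟩
    rw [deriv_mul_fun hu.1 hv.1]
    exact (ih hu.2 hv').add (ih hu' hv.2)

theorem PP.mul_gg {x₀ : ℝ} {m : ℕ} : ∀ {u v : ℝ → ℝ}, PP x₀ m u → u x₀ = 0 → GG x₀ m v →
    PP x₀ m (u * v) := by
  induction m with
  | zero =>
    intro u v hu h0 hv
    refine ⟨fun j hj => by omega, ?_⟩
    have h1 := hu.2
    have h2 := hv.2
    rw [iteratedDeriv_zero] at h1 h2 ⊢
    exact h1.mul_lb h0 h2
  | succ m ih =>
    intro u v hu h0 hv
    have hu' := hu.pp_pred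
    have hv' := hv.pp_pred
    rw [PP_succ] at hu ⊢
    rw [GG_succ] at hv
    refine ⟨hu.1.mul hv.1, ?_⟩
    rw [deriv_mul_fun hu.1 hv.1]
    exact (hu.2.mul hv').add (ih hu' h0 hv.2)

theorem GG.mul {x₀ : ℝ} {m : ℕ} : ∀ {u v : ℝ → ℝ}, GG x₀ m u → GG x₀ m v → GG x₀ m (u * v) := by
  have hadd : ∀ (k : ℕ) {u v : ℝ → ℝ}, GG x₀ k u → GG x₀ k v → GG x₀ k (u + v) := by
    intro k
    induction k with
    | zero =>
      intro u v hu hv
      refine ⟨fun j hj => by omega, ?_⟩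
      have h1 := hu.2
      have h2 := hv.2
      rw [iteratedDeriv_zero] at h1 h2 ⊢
      exact IsBigO.add h1 h2
    | succ k ih =>
      intro u v hu hv
      rw [GG_succ] at hu hv ⊢
      refine ⟨hu.1.add hv.1, ?_⟩
      have : deriv (u + v) = deriv u + deriv v := by
        funext x
        exact deriv_add (hu.1 x) (hv.1 x)
      rw [this]
      exact ih hu.2 hv.2
  induction m with
  | zero =>
    intro u v hu hv
    refine ⟨fun j hj => by omega, ?_⟩
    have h1 := hu.2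
    have h2 := hv.2
    rw [iteratedDeriv_zero] at h1 h2 ⊢
    have := IsBigO.mul h1 h2
    simpa [LB] using this
  | succ m ih =>
    intro u v hu hv
    have hu' := hu.pp_pred.gg
    have hv' := hv.pp_pred.gg
    rw [GG_succ] at hu hv ⊢
    refine ⟨hu.1.mul hv.1, ?_⟩
    rw [deriv_mul_fun hu.1 hv.1]
    exact hadd m (ih hu.2 hv') (ih hu' hv.2)

/-- If `u, v` are `m + 1` times differentiable with locally bounded `(m+1)`-st derivatives at `x₀`
and both vanish at `x₀`, then `(u v)^{(m+1)}` is pointwise Lipschitz at `x₀`. -/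
theorem pp_of_vanish {x₀ : ℝ} {m : ℕ} {u v : ℝ → ℝ} (hu : GG x₀ (m + 1) u)
    (hv : GG x₀ (m + 1) v) (hu0 : u x₀ = 0) (hv0 : v x₀ = 0) : PP x₀ (m + 1) (u * v) := by
  have hu' := hu.pp_pred
  have hv' := hv.pp_pred
  rw [GG_succ] at hu hv
  rw [PP_succ]
  refine ⟨hu.1.mul hv.1, ?_⟩
  rw [deriv_mul_fun hu.1 hv.1]
  refine PP.add ?_ (hu'.mul_gg hu0 hv.2)
  have := hv'.mul_gg hv0 hu.2
  rwa [mul_comm] at this

/-! ### The Baire category argument -/

/-- The derivative of an everywhere differentiable function is bounded near some point. -/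
theorem exists_locally_bounded_deriv (φ : ℝ → ℝ) (hφ : Differentiable ℝ φ) :
    ∃ x₀ : ℝ, LB x₀ (deriv φ) := by
  let E : ℕ → Set ℝ := fun m =>
    {x | ∀ h : ℝ, |h| ≤ 1 / ((m : ℝ) + 1) → |φ (x + h) - φ x| ≤ m * |h|}
  have hclosed : ∀ m, IsClosed (E m) := by
    intro m
    have : E m = ⋂ (h : ℝ) (_ : |h| ≤ 1 / ((m : ℝ) + 1)), {x | |φ (x + h) - φ x| ≤ m * |h|} := by
      ext x; simp [E]
    rw [this]
    refine isClosed_iInter fun h => isClosed_iInter fun _ => ?_
    have hc := hφ.continuous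
    exact isClosed_le (by fun_prop) continuous_const
  have hunion : ⋃ m, E m = Set.univ := by
    rw [Set.eq_univ_iff_forall]
    intro x
    have h1 := (hφ x).isBigO_sub
    obtain ⟨C, hC⟩ := h1.bound
    rw [Metric.eventually_nhds_iff] at hC
    obtain ⟨δ, hδ, hC⟩ := hC
    obtain ⟨m₁, hm₁⟩ := exists_nat_ge C
    obtain ⟨m₂, hm₂⟩ := exists_nat_one_div_lt hδ
    refine Set.mem_iUnion.mpr ⟨max m₁ m₂, fun h hh => ?_⟩
    have h2 : |h| < δ := by
      refine lt_of_le_of_lt (hh.trans ?_) hm₂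
      have : (m₂ : ℝ) ≤ (max m₁ m₂ : ℕ) := by exact_mod_cast le_max_right m₁ m₂
      gcongr
    have h3 := hC (y := x + h) (by simpa [Real.dist_eq] using h2)
    simp only [add_sub_cancel_left, Real.norm_eq_abs] at h3
    refine h3.trans ?_
    have : (m₁ : ℝ) ≤ (max m₁ m₂ : ℕ) := by exact_mod_cast le_max_left m₁ m₂
    exact mul_le_mul_of_nonneg_right (hm₁.trans this) (abs_nonneg _)
  obtain ⟨m, x₀, hx₀⟩ := nonempty_interior_of_iUnion_of_closed hclosed hunion
  refine ⟨x₀, ?_⟩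
  have hev : ∀ᶠ y in 𝓝 x₀, ‖deriv φ y‖ ≤ (m : ℝ) * ‖(1 : ℝ)‖ := by
    filter_upwards [mem_interior_iff_mem_nhds.mp hx₀] with y hy
    rw [norm_one, mul_one]
    refine norm_deriv_le_of_lip' (Nat.cast_nonneg m) ?_
    have hpos : (0 : ℝ) < 1 / ((m : ℝ) + 1) := by positivity
    filter_upwards [Metric.ball_mem_nhds y hpos] with z hz
    have h1 : |z - y| < 1 / ((m : ℝ) + 1) := by simpa [Real.dist_eq] using hz
    have h2 := hy (z - y) h1.le
    simpa using h2
  exact IsBigO.of_bound _ hev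

/-! ### The main result -/

theorem not_nowhereHolder_of_PL {x₀ : ℝ} {g : ℝ → ℝ} (h : PL x₀ g) : ¬ NowhereHolder g := by
  intro hg
  have h1 := hg x₀ 1 one_pos
  obtain ⟨C, hC⟩ := h.bound
  have h2 : ∀ᶠ y in 𝓝[≠] x₀, ENNReal.ofReal (|g y - g x₀| / |y - x₀| ^ (1 : ℝ)) ≤
      ENNReal.ofReal C := by
    filter_upwards [hC.filter_mono nhdsWithin_le_nhds, self_mem_nhdsWithin] with y hy hne
    refine ENNReal.ofReal_le_ofReal ?_
    rw [Real.rpow_one]
    have hpos : 0 < |y - x₀| := abs_pos.mpr (sub_ne_zero.mpr hne)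
    rw [div_le_iff₀ hpos]
    simpa [Real.norm_eq_abs] using hy
  have h3 := limsup_le_of_le (by isBoundedDefault) h2
  rw [h1] at h3
  exact absurd h3 (by simp)

/-- For every `f` that is `n ≥ 1` times differentiable there is a non-zero polynomial without
constant term in one variable whose value at `f` is not in `𝒜_n`. -/
theorem key (n : ℕ) (hn : 1 ≤ n) (f : ℝ → ℝ) (hf : TimesDiff n f) :
    ∃ P : MvPolynomial (Fin 1) ℝ, P ≠ 0 ∧ MvPolynomial.constantCoeff P = 0 ∧
      MvPolynomial.aeval (fun _ : Fin 1 => f) P ∉ ClassA n := by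
  obtain ⟨m, rfl⟩ : ∃ m, n = m + 1 := ⟨n - 1, by omega⟩
  obtain ⟨x₀, hx₀⟩ := exists_locally_bounded_deriv (iteratedDeriv m f) (hf m (by omega))
  have hf' : GG x₀ (m + 1) f := ⟨hf, by rwa [iteratedDeriv_succ]⟩
  set c := f x₀ with hc
  -- the function `f - c`
  have hconst : ∀ k, GG x₀ k (fun _ : ℝ => -c) := by
    intro k
    cases k with
    | zero =>
      refine ⟨fun j hj => by omega, ?_⟩
      rw [iteratedDeriv_zero]
      exact isBigO_const_const _ one_ne_zero _
    | succ k =>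
      rw [GG_succ]
      refine ⟨differentiable_const _, ?_⟩
      have h0 : deriv (fun _ : ℝ => -c) = 0 := by funext x; simp
      rw [h0]
      have h1 : ∀ j, iteratedDeriv j (0 : ℝ → ℝ) = 0 := by
        intro j
        induction j with
        | zero => simp
        | succ j ih =>
          rw [iteratedDeriv_succ, ih]
          funext x
          simp [Pi.zero_def]
      refine ⟨fun j _ => ?_, ?_⟩
      · rw [h1]; exact differentiable_const _
      · rw [h1]; exact isBigO_zero _ _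
  have hadd : ∀ (k : ℕ) {u v : ℝ → ℝ}, GG x₀ k u → GG x₀ k v → GG x₀ k (u + v) := by
    intro k
    induction k with
    | zero =>
      intro u v hu hv
      refine ⟨fun j hj => by omega, ?_⟩
      have h1 := hu.2
      have h2 := hv.2
      rw [iteratedDeriv_zero] at h1 h2 ⊢
      exact IsBigO.add h1 h2
    | succ k ih =>
      intro u v hu hv
      rw [GG_succ] at hu hv ⊢
      refine ⟨hu.1.add hv.1, ?_⟩
      have : deriv (u + v) = deriv u + deriv v := by
        funext x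
        exact deriv_add (hu.1 x) (hv.1 x)
      rw [this]
      exact ih hu.2 hv.2
  set h : ℝ → ℝ := f + fun _ => -c with hh
  have hhG : GG x₀ (m + 1) h := hadd _ hf' (hconst _)
  have hh0 : h x₀ = 0 := by simp [hh, hc]
  have hfin := pp_of_vanish hhG (hf'.mul hhG) hh0 (by simp [hh0])
  refine ⟨MvPolynomial.X 0 * (MvPolynomial.X 0 - MvPolynomial.C c) ^ 2, ?_, ?_, ?_⟩
  · intro h0
    have h1 := congrArg (MvPolynomial.eval (fun _ => |c| + 1)) h0
    simp only [map_mul, map_pow, map_sub, MvPolynomial.eval_X, MvPolynomial.eval_C, map_zero] at h1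
    have h2 : |c| + 1 ≠ 0 := by positivity
    have h3 : |c| + 1 - c ≠ 0 := by
      have := le_abs_self c
      intro h; linarith
    exact (mul_ne_zero h2 (pow_ne_zero 2 h3)) h1
  · simp
  · rintro ⟨-, hN⟩
    refine not_nowhereHolder_of_PL (x₀ := x₀) ?_ hN
    have heq : MvPolynomial.aeval (fun _ : Fin 1 => f)
        (MvPolynomial.X 0 * (MvPolynomial.X 0 - MvPolynomial.C c) ^ 2 :
          MvPolynomial (Fin 1) ℝ) = h * (f * h) := by
      funext x
      simp only [map_mul, map_pow, map_sub, MvPolynomial.aeval_X, MvPolynomial.aeval_C,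
        Pi.mul_apply, Pi.pow_apply, Pi.sub_apply, hh, Pi.add_apply, Pi.algebraMap_apply,
        Algebra.algebraMap_self, RingHom.id_apply]
      ring
    rw [heq]
    exact hfin.2

/-- For every `n ≥ 1` and every cardinal `κ ≥ 1`, the set `𝒜_n` is not strongly
`κ`-algebrable. -/
theorem result (n : ℕ) (hn : 1 ≤ n) (κ : Cardinal.{0}) (hκ : 1 ≤ κ) :
    ¬ StronglyAlgebrable κ (ClassA n) := by
  rintro ⟨X, hX, hP⟩
  have hne : Cardinal.mk X ≠ 0 := by
    rw [hX]
    intro h0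
    rw [h0] at hκ
    exact absurd hκ (by simp)
  obtain ⟨f, hfX⟩ : X.Nonempty := by
    rw [← Set.nonempty_coe_sort]
    exact Cardinal.mk_ne_zero_iff.mp hne
  have hinj : Function.Injective (fun _ : Fin 1 => f) := fun i j _ => Subsingleton.elim i j
  have hf : f ∈ ClassA n := by
    have h := (hP 1 le_rfl (MvPolynomial.X 0) (MvPolynomial.X_ne_zero 0) (by simp)
      (fun _ => f) hinj (fun _ => hfX)).2
    simpa using h
  obtain ⟨P, hP0, hPc, hPn⟩ := key n hn f hf.1
  exact hPn (hP 1 le_rfl P hP0 hPc (fun _ => f) hinj (fun _ => hfX)).2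

end Pool.Agent.Results.MP_4d07cf_an.NotAlgebrable
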